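import Mathlib
import Pool.Agent.H33.BanDefs

namespace Pool.Agent.Results.MP_b01501_co.Q1
open Pool.Agent.H33.Ban Classical Pointwise Equiv

def Fx (N : ℕ) (σ : Perm ℕ) : Prop := ∀ i, N ≤ i → σ i = i

lemma Fx.mul {N : ℕ} {σ τ : Perm ℕ} (h : Fx N σ) (h' : Fx N τ) : Fx N (σ * τ) := fun i hi => by
  rw [Perm.mul_apply, h' i hi, h i hi]
lemma Fx.inv {N : ℕ} {σ : Perm ℕ} (h : Fx N σ) : Fx N σ⁻¹ := fun i hi => by
  rw [Perm.inv_eq_iff_eq, h i hi]
lemma Fx.mono {N M : ℕ} {σ : Perm ℕ} (h : Fx N σ) (hM : N ≤ M) : Fx M σ :=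
  fun i hi => h i (hM.trans hi)

def FS : Subgroup (Perm ℕ) where
  carrier := {σ | ∃ N, Fx N σ}
  mul_mem' := fun ⟨N, h⟩ ⟨M, h'⟩ =>
    ⟨max N M, (h.mono (le_max_left _ _)).mul (h'.mono (le_max_right _ _))⟩
  one_mem' := ⟨0, fun _ _ => rfl⟩
  inv_mem' := fun ⟨N, h⟩ => ⟨N, h.inv⟩

abbrev G := ↥FS

lemma fin (N : ℕ) (x : G) : {a : G | Fx N (a * x⁻¹ : G).1}.Finite := by
  have h1 : {a : G | Fx N a.1}.Finite := by
    have lt : ∀ a : {a : G | Fx N a.1}, ∀ i : Fin N, a.1.1 i < N := fun a i => by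
      by_contra h
      have := a.1.1.injective (a.2 _ (not_lt.1 h))
      exact h (by rw [this]; exact i.2)
    refine Finite.of_injective (fun (a : {a : G | Fx N a.1}) (i : Fin N) => (⟨_, lt a i⟩ : Fin N))
      fun a b h => Subtype.ext (Subtype.ext (Perm.ext fun i => ?_))
    rcases lt_or_ge i N with hi | hi
    · exact congrArg Fin.val (congrFun h ⟨i, hi⟩)
    · rw [a.2 i hi, b.2 i hi]
  exact h1.preimage (mul_left_injective x⁻¹).injOn

noncomputable def K (N : ℕ) (x : G) : Finset G := (fin N x).toFinset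

lemma memK {N : ℕ} {x a : G} : a ∈ K N x ↔ Fx N (a * x⁻¹ : G).1 := by simp [K]

lemma K_mul {N : ℕ} {x a h : G} (hh : Fx N h.1) (ha : a ∈ K N x) : h * a ∈ K N x := by
  rw [memK] at ha ⊢
  rw [mul_assoc]; exact hh.mul ha

lemma invar_of {G : Type} [Group G] {H K : Finset G} {ε : ℝ} (hε : 0 < ε) (ne : K.Nonempty)
    (hK : ∀ h ∈ H, ∀ a ∈ K, h * a ∈ K) : Invar H ε K := by
  refine ⟨ne, fun h hh => ?_⟩
  rw [Finset.eq_of_subset_of_card_le (Finset.image_subset_iff.2 (hK h hh))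
    (Finset.card_image_of_injective _ (mul_right_injective h)).ge]
  simpa using mul_pos hε (Nat.cast_pos.2 ne.card_pos)

lemma invar (H : Finset G) : ∃ n, ∀ ε, 0 < ε → ∀ x, Invar H ε (K (3 ^ (n + 1)) x) := by
  choose N hN using fun h : G => h.2
  refine ⟨H.sup N, fun ε hε x => ?_⟩
  refine invar_of hε ⟨x, memK.2 (by simp [Fx])⟩ fun h hh a ha => K_mul ?_ ha
  exact (hN h).mono ((Finset.le_sup (f := N) hh).trans
    ((Nat.le_succ _).trans (Nat.lt_pow_self (by norm_num)).le))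

def sf (N D i : ℕ) : ℕ := if i < N then i + D else if D ≤ i ∧ i < D + N then i - D else i

lemma sf_inv {N D : ℕ} (h : N ≤ D) : Function.Involutive (sf N D) := fun i => by
  unfold sf; split_ifs <;> omega

def xx (c n : ℕ) : G := ⟨(sf_inv (N := 3 ^ (n + 1)) (D := (c + 1) * 3 ^ (n + 1))
  (Nat.le_mul_of_pos_left _ c.succ_pos)).toPerm, (c + 2) * 3 ^ (n + 1), fun i hi => by
    change sf _ _ _ = _
    unfold sf; rw [show (c + 2) * 3 ^ (n + 1) = (c + 1) * 3 ^ (n + 1) + 3 ^ (n + 1) by ring] at hi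
    split_ifs <;> omega⟩

def S (c : ℕ) : Set G := {a | ∃ n, a ∈ K (3 ^ (n + 1)) (xx c n)}

lemma memS {c n : ℕ} {a : G} (h : a ∈ K (3 ^ (n + 1)) (xx c n)) (i : ℕ) (hi : 3 ^ (n + 1) ≤ i) :
    a.1 (sf (3 ^ (n + 1)) ((c + 1) * 3 ^ (n + 1)) i) = i := memK.1 h i hi

def P (c : ℕ) (w : Perm ℕ) : Prop := ∃ n, Fx ((c + 2) * 3 ^ n) w ∧ ¬ Fx ((c + 1) * 3 ^ n) w

lemma PS {c : ℕ} {a b : G} (ha : a ∈ S c) (hb : b ∈ S c) (h : a ≠ b) :
    P c (a⁻¹ * b).1 := by
  have key : ∀ (a b : G) (n m : ℕ), m ≤ n → a ∈ K (3 ^ (n + 1)) (xx c n) →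
      b ∈ K (3 ^ (m + 1)) (xx c m) → a ≠ b → P c (a⁻¹ * b).1 := by
    intro a b n m hmn ha hb h
    have e : ∀ i j, (a⁻¹ * b).1 i = j ↔ b.1 i = a.1 j := fun i j => Perm.inv_eq_iff_eq
    have h1 := memS ha
    have h2 := memS hb
    have h3 : 3 ^ (m + 1) ≤ 3 ^ (n + 1) := Nat.pow_le_pow_right (by norm_num) (by omega)
    have h4 : 0 < 3 ^ (m + 1) := by positivity
    refine ⟨n + 1, fun i hi => ?_, fun hf => ?_⟩
    · have a1 := h1 i (by nlinarith)
      have a2 := h2 i (by nlinarith)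
      unfold sf at a1 a2
      rw [if_neg (by nlinarith), if_neg (fun h => by nlinarith [h.2])] at a1 a2
      rw [e, a1, a2]
    · rcases hmn.eq_or_lt with rfl | hlt
      · apply h
        refine Subtype.ext (Perm.ext fun i => ?_)
        rcases le_or_gt ((c + 1) * 3 ^ (m + 1)) i with hi | hi
        · exact ((e i i).1 (hf i hi)).symm
        · have a1 := sf_inv (N := 3 ^ (m + 1)) (D := (c + 1) * 3 ^ (m + 1)) (by nlinarith) i
          have a2 : 3 ^ (m + 1) ≤ sf (3 ^ (m + 1)) ((c + 1) * 3 ^ (m + 1)) i := by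
            unfold sf; split_ifs
            · nlinarith
            all_goals omega
          rw [← a1, h1 _ a2, h2 _ a2]
      · have h5 : 3 ^ (m + 1 + 1) ≤ 3 ^ (n + 1) := Nat.pow_le_pow_right (by norm_num) (by omega)
        rw [pow_succ] at h5
        have a0 := (e _ _).1 (hf _ le_rfl)
        have a1 := h1 ((c + 1) * 3 ^ (n + 1)) (by nlinarith)
        have a2 := h2 ((c + 1) * 3 ^ (n + 1)) (by nlinarith)
        unfold sf at a1 a2
        rw [if_neg (by nlinarith), if_pos ⟨le_rfl, by omega⟩, Nat.sub_self] at a1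
        rw [if_neg (by nlinarith), if_neg (fun h => by nlinarith [h.2])] at a2
        have := a.1.injective (a1.trans (a2.symm.trans a0))
        nlinarith
  obtain ⟨n, ha⟩ := ha
  obtain ⟨m, hb⟩ := hb
  rcases le_total m n with hmn | hmn
  · exact key a b n m hmn ha hb h
  · obtain ⟨k, h1, h2⟩ := key b a m n hmn hb ha h.symm
    refine ⟨k, by simpa using h1.inv, fun h3 => h2 (by simpa using h3.inv)⟩

lemma disj {w : Perm ℕ} (h0 : P 0 w) (h1 : P 1 w) : False := by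
  obtain ⟨n, a1, a2⟩ := h0
  obtain ⟨m, b1, b2⟩ := h1
  rcases le_or_gt n m with h | h
  · exact b2 (a1.mono (by have := Nat.pow_le_pow_right (show 0 < 3 by norm_num) h; omega))
  · refine a2 (b1.mono ?_)
    have := Nat.pow_le_pow_right (show 0 < 3 by norm_num) (show m + 1 ≤ n from h)
    rw [pow_succ] at this; omega

lemma t3 : Fx 3 (swap 0 2 * swap 0 1) := fun i hi => by
  have e1 : swap 0 1 i = i := swap_apply_of_ne_of_ne (by omega) (by omega)
  have e2 : swap 0 2 i = i := swap_apply_of_ne_of_ne (by omega) (by omega)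
  rw [Perm.mul_apply, e1, e2]

def t : G := ⟨swap 0 2 * swap 0 1, 3, t3⟩

lemma tF (n : ℕ) : Fx (3 ^ (n + 1)) t.1 := t3.mono (by
  rw [pow_succ]; exact Nat.le_mul_of_pos_left _ (by positivity))

def pp (a : G) (i : ℕ) : ℕ := a.1⁻¹ i
lemma p0 (a : G) : pp (t * a) 0 = pp a 2 := by simp [pp, t, swap_apply_def]
lemma p1 (a : G) : pp (t * a) 1 = pp a 0 := by simp [pp, t, swap_apply_def]
lemma p2 (a : G) : pp (t * a) 2 = pp a 1 := by simp [pp, t, swap_apply_def]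
lemma pi (a : G) : Function.Injective (pp a) := a.1⁻¹.injective

def T (a : G) : Prop := pp a 0 < pp a 1 ∧ pp a 0 < pp a 2
def A : Set G := {a | a ∈ S 0 ∧ ¬ T a}

lemma dens_bd {A : Set G} {α : ℝ} (h : ∀ n, ∃ x, α * (K (3 ^ (n + 1)) x).card ≤
    ((K (3 ^ (n + 1)) x).filter fun k => k ∈ A).card) : α ≤ dens A ∧ dens A ≤ 1 := by
  have h1 : α ∈ {α : ℝ | ∀ (H : Finset G) (ε : ℝ), 0 < ε →
      ∃ K, Invar H ε K ∧ α * K.card ≤ (K.filter fun k => k ∈ A).card} := fun H ε hε => by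
    obtain ⟨n, hn⟩ := invar H
    obtain ⟨x, hx⟩ := h n
    exact ⟨_, hn ε hε x, hx⟩
  have h2 : ∀ β ∈ {α : ℝ | ∀ (H : Finset G) (ε : ℝ), 0 < ε →
      ∃ K, Invar H ε K ∧ α * K.card ≤ (K.filter fun k => k ∈ A).card}, β ≤ (1 : ℝ) := fun β hβ => by
    obtain ⟨K, hK, h⟩ := hβ ∅ 1 one_pos
    have a1 : (0 : ℝ) < K.card := Nat.cast_pos.2 hK.1.card_pos
    have a2 : ((K.filter fun k => k ∈ A).card : ℝ) ≤ K.card := Nat.cast_le.2 (Finset.card_filter_le _ _)
    nlinarith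
  exact ⟨le_csSup ⟨1, h2⟩ h1, csSup_le ⟨α, h1⟩ h2⟩

lemma dA (n : ℕ) : (2 / 3 : ℝ) * (K (3 ^ (n + 1)) (xx 0 n)).card ≤
    ((K (3 ^ (n + 1)) (xx 0 n)).filter fun k => k ∈ A).card := by
  set Q := K (3 ^ (n + 1)) (xx 0 n)
  have e : (Q.filter fun k => k ∈ A) = Q.filter fun k => ¬ T k :=
    Finset.filter_congr fun k hk => ⟨fun h => h.2, fun h => ⟨⟨n, hk⟩, h⟩⟩
  have h1 := Finset.card_filter_add_card_filter_not (s := Q) T
  have h2 : (((Q.filter T).image fun a => t * a) ∪ (Q.filter T).image fun a => t * (t * a)) ⊆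
      Q.filter fun k => ¬ T k := by
    simp only [Finset.union_subset_iff, Finset.image_subset_iff, Finset.mem_filter, T, p0, p1, p2]
    exact ⟨fun a ha => ⟨K_mul (tF n) ha.1, by omega⟩,
      fun a ha => ⟨K_mul (tF n) (K_mul (tF n) ha.1), by omega⟩⟩
  have h3 := Finset.card_le_card h2
  rw [Finset.card_union_of_disjoint, Finset.card_image_of_injective _ (mul_right_injective t),
    Finset.card_image_of_injective _ fun a b h => mul_right_injective t (mul_right_injective t h)] at h3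
  · rw [e, ← h1]; push_cast
    have : (((Q.filter T).card + (Q.filter T).card : ℕ) : ℝ) ≤ (Q.filter fun k => ¬ T k).card :=
      Nat.cast_le.2 h3
    push_cast at this; linarith
  · simp only [Finset.disjoint_left, Finset.mem_image, Finset.mem_filter]
    rintro _ ⟨a, ha, rfl⟩ ⟨b, hb, h⟩
    obtain rfl := mul_left_cancel h
    simp only [T, p0, p1, p2] at ha hb
    omega

theorem result : ∃ (G : Type) (_ : Group G) (A B : Set G), Amenable G ∧ 0 < dens A ∧ 0 < dens B ∧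
    ¬ PwSyndetic ⌊1 / (dens A * dens B)⌋₊ (A * B⁻¹) := by
  obtain ⟨a1, a2⟩ := dens_bd (A := A) fun n => ⟨_, dA n⟩
  obtain ⟨b1, b2⟩ := dens_bd (A := S 1) (α := 1) fun n => ⟨xx 1 n, by
    rw [Finset.filter_true_of_mem fun k hk => ⟨n, hk⟩, one_mul]⟩
  refine ⟨G, inferInstance, A, S 1, fun H ε hε => ?_, by linarith, by linarith, ?_⟩
  · obtain ⟨n, hn⟩ := invar H
    exact ⟨_, hn ε hε 1⟩
  rintro ⟨F, hF, hT⟩
  have h2 : ⌊1 / (dens A * dens (S 1))⌋₊ < 2 := by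
    rw [Nat.floor_lt (by positivity), div_lt_iff₀ (by nlinarith)]
    push_cast; nlinarith
  obtain ⟨f, hf⟩ := Finset.card_le_one_iff_subset_singleton.1 (show F.card ≤ 1 by omega)
  obtain ⟨z, hz⟩ := hT {f, f * t⁻¹, f * t⁻¹ * t⁻¹}
  have H : ∀ g : G, f * g * z ∈ (F : Set G) * (A * (S 1)⁻¹) → ∃ a ∈ A, ∃ b ∈ S 1, g * z * b = a := by
    rintro g ⟨f', hf', _, ⟨a, ha, b, hb, rfl⟩, h⟩
    obtain rfl : f' = f := Finset.mem_singleton.1 (hf hf')
    refine ⟨a, ha, b⁻¹, hb, ?_⟩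
    simp only [mul_assoc] at h
    rw [← mul_left_cancel h]; simp
  have St : ∀ a ∈ S 0, t * a ∈ S 0 := fun a ⟨n, h⟩ => ⟨n, K_mul (tF n) h⟩
  have U : ∀ a ∈ S 0, ∀ a' ∈ S 0, ∀ b ∈ S 1, ∀ b' ∈ S 1, z * b = a → z * b' = a' → a = a' := by
    rintro _ ha _ ha' b hb b' hb' rfl rfl
    by_contra h
    exact disj (PS ha ha' h) (by
      simpa using PS hb hb' fun e => h (by rw [e]))
  obtain ⟨a0, ha0, b0, hb0, e0⟩ := H 1 (by simpa using hz f (by simp))
  obtain ⟨a1, ha1, b1, hb1, e1⟩ := H t⁻¹ (hz _ (by simp))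
  obtain ⟨a2, ha2, b2, hb2, e2⟩ := H (t⁻¹ * t⁻¹) (by rw [← mul_assoc f]; exact hz (f * t⁻¹ * t⁻¹) (by simp))
  have u1 := U _ ha0.1 _ (St _ ha1.1) _ hb0 _ hb1 (by simpa using e0) (by rw [← e1]; simp [mul_assoc])
  have u2 := U _ ha0.1 _ (St _ (St _ ha2.1)) _ hb0 _ hb2 (by simpa using e0) (by rw [← e2]; simp [mul_assoc])
  obtain rfl : a1 = t * a2 := mul_left_cancel (u1.symm.trans u2)
  subst u1
  have c0 := ha0.2
  have c1 := ha1.2
  have c2 := ha2.2
  simp only [T, p0, p1, p2] at c0 c1 c2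
  have := (pi a2).ne (show 0 ≠ 1 by norm_num)
  have := (pi a2).ne (show 0 ≠ 2 by norm_num)
  have := (pi a2).ne (show 1 ≠ 2 by norm_num)
  omega

end Pool.Agent.Results.MP_b01501_co.Q1
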